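import Mathlib

open MeasureTheory Filter Topology Set Function
open scoped ENNReal symmDiff

namespace Pool.Agent.H.MP_f4733e_pr

variable {E : Type}

def cyl (a : ℕ → E) (n : ℕ) : Set (ℕ → E) := {b | ∀ i < n, b i = a i}

lemma self_mem (a : ℕ → E) (n : ℕ) : a ∈ cyl a n := fun _ _ => rfl

lemma cyl_eq {a b : ℕ → E} {n : ℕ} (h : b ∈ cyl a n) : cyl b n = cyl a n := by
  ext c; exact forall₂_congr fun i hi => by rw [h i hi]

lemma cyl_mono {a b : ℕ → E} {n k : ℕ} (h : b ∈ cyl a n) (hk : k ≤ n) : b ∈ cyl a k :=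
  fun i hi => h i (hi.trans_le hk)

lemma cyl_symm {a b : ℕ → E} {n : ℕ} (h : b ∈ cyl a n) : a ∈ cyl b n :=
  fun i hi => (h i hi).symm

lemma fin_pat [Finite E] {α : Type} (P : Set (ℕ → E) → ℕ → α → Prop) (l : Filter α)
    (h : ∀ b j, ∀ᶠ N in l, P (cyl b j) j N) (K : ℕ) :
    ∀ᶠ N in l, ∀ b, ∀ j ≤ K, P (cyl b j) j N := by
  cases isEmpty_or_nonempty E with
  | inl _ => exact .of_forall fun _ b => isEmptyElim (b 0)
  | inr hE =>
    have := eventually_all.2 fun p : Fin (K + 1) × (Fin K → E) =>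
      h (fun i => if h : i < K then p.2 ⟨i, h⟩ else hE.some) p.1
    filter_upwards [this] with N hN b j hj
    have := hN (⟨j, by omega⟩, fun i => b i)
    rwa [cyl_eq (a := b) fun i hi => dif_pos (by omega)] at this

variable [Finite E] [MeasurableSpace E] [MeasurableSingletonClass E]

lemma cyl_meas (a : ℕ → E) (n : ℕ) : MeasurableSet (cyl a n) := by
  unfold cyl; measurability

variable (Q : Measure (ℕ → E))

lemma stop (τ : (ℕ → E) → ℕ → Prop) (h1 : ∀ a b n, τ a n → b ∈ cyl a n → τ b n)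
    (h2 : ∀ a n k, τ a n → τ a k → n = k) {F F' : Set (ℕ → E)} (hF : MeasurableSet F') {c : ℝ≥0∞}
    (h : ∀ a n, τ a n → Q (cyl a n ∩ F) ≤ c * Q (cyl a n ∩ F')) :
    Q ({a | ∃ n, τ a n} ∩ F) ≤ c * Q ({a | ∃ n, τ a n} ∩ F') := by
  let S : Set (Set (ℕ → E)) := {C | ∃ a n, τ a n ∧ C = cyl a n}
  have hS : S.Countable := by
    cases isEmpty_or_nonempty E with
    | inl _ => exact countable_empty.mono fun _ ⟨a, _⟩ => isEmptyElim (a 0)
    | inr hE =>
      refine (countable_range fun p : Σ n : ℕ, Fin n → E =>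
        cyl (fun i => if h : i < p.1 then p.2 ⟨i, h⟩ else hE.some) p.1).mono ?_
      rintro _ ⟨a, n, -, rfl⟩
      exact ⟨⟨n, fun i => a i⟩, cyl_eq fun i hi => dif_pos hi⟩
  have e : ∀ F, {a | ∃ n, τ a n} ∩ F = ⋃ C ∈ S, C ∩ F := fun F => by
    ext b
    simp only [mem_inter_iff, mem_ofPred_eq, mem_iUnion]
    exact ⟨fun ⟨⟨n, hn⟩, hb⟩ => ⟨_, ⟨b, n, hn, rfl⟩, self_mem _ _, hb⟩,
      fun ⟨_, ⟨a, n, hn, rfl⟩, hb, hb'⟩ => ⟨⟨n, h1 _ _ _ hn hb⟩, hb'⟩⟩
  rw [e, e, measure_biUnion (s := S) (f := fun C => C ∩ F') hS, ← ENNReal.tsum_mul_left]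
  · refine (measure_biUnion_le Q hS _).trans (ENNReal.tsum_le_tsum ?_)
    rintro ⟨_, a, n, hn, rfl⟩
    exact h a n hn
  · rintro _ ⟨a, n, hn, rfl⟩ _ ⟨b, k, hk, rfl⟩ hne
    refine disjoint_left.2 fun x hx hx' => hne ?_
    obtain rfl := h2 x n k (h1 _ _ _ hn hx.1) (h1 _ _ _ hk hx'.1)
    rw [← cyl_eq hx.1, cyl_eq hx'.1]
  · rintro _ ⟨a, n, -, rfl⟩
    exact (cyl_meas a n).inter hF

lemma levy [IsFiniteMeasure Q] {F : Set (ℕ → E)} (hF : MeasurableSet F) {c : ℝ≥0∞} (hc : c ≠ ∞) :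
    ∀ᵐ a ∂Q, a ∉ F → ∀ᶠ n in atTop, c * Q (cyl a n ∩ F) < Q (cyl a n) := by
  rw [ae_iff]
  refine nonpos_iff_eq_zero.1 (ge_of_tendsto (f := fun ε : ℝ≥0∞ => ε + c * ε) (x := 𝓝[>] 0) ?_ ?_)
  · refine tendsto_nhdsWithin_of_tendsto_nhds ?_
    simpa using tendsto_id.add (ENNReal.Tendsto.const_mul (a := c) (b := 0) tendsto_id (.inr hc))
  filter_upwards [self_mem_nhdsWithin] with ε hε
  obtain ⟨D, hD, h⟩ := exists_measure_symmDiff_lt_of_generateFrom_isSetRing (μ := Q)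
    isSetRing_measurableCylinders ⟨{univ}, by simp, singleton_subset_iff.2 (univ_mem_measurableCylinders _), by simp⟩
    generateFrom_measurableCylinders.symm hF.compl hε
  obtain ⟨I, S, -, rfl⟩ := (mem_measurableCylinders _).1 hD
  obtain ⟨n₀, hn₀⟩ := I.bddAbove
  let p : (ℕ → E) → ℕ → Prop := fun a n => n₀ < n ∧ Q (cyl a n) ≤ c * Q (cyl a n ∩ F)
  have hp : ∀ {a b n k}, b ∈ cyl a n → k ≤ n → (p b k ↔ p a k) := fun h hk => by
    simp only [p, cyl_eq (cyl_mono h hk)]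
  have := stop Q (fun a n => a ∈ cylinder I S ∧ p a n ∧ ∀ k < n, ¬ p a k)
    (fun a b n ⟨h1, h2, h3⟩ hb => ⟨?_, (hp hb le_rfl).2 h2, fun k hk => mt (hp hb hk.le).1 (h3 k hk)⟩)
    (fun a n k h h' => le_antisymm (not_lt.1 fun l => h.2.2 k l h'.2.1)
      (not_lt.1 fun l => h'.2.2 n l h.2.1)) (F := univ) hF (c := c)
    fun a n h => by simpa using h.2.1.2
  · refine le_trans (measure_mono fun a ha => ?_) ((measure_union_le _ _).trans (add_le_add h.le
      (this.trans (mul_le_mul_right ((measure_mono fun a ha => ?_).trans h.le) _))))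
    · simp only [mem_ofPred_eq, Classical.not_imp, not_eventually, not_lt] at ha
      by_cases hD : a ∈ cylinder I S
      · classical
        have hex : ∃ n, p a n := (ha.2.and_eventually (eventually_gt_atTop n₀)).exists.imp
          fun n h => h.symm
        exact .inr ⟨⟨_, hD, Nat.find_spec hex, fun k => Nat.find_min hex⟩, trivial⟩
      · exact .inl (.inr ⟨ha.1, hD⟩)
    · obtain ⟨⟨n, h1, -⟩, h2⟩ := ha
      exact .inl ⟨h1, not_not.2 h2⟩
  · rw [mem_cylinder] at h1 ⊢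
    convert h1 using 1
    funext i
    exact hb i ((hn₀ i.2).trans_lt h2.1)

lemma split [Fintype E] (a : ℕ → E) (n : ℕ) {F : Set (ℕ → E)} (hF : MeasurableSet F) :
    Q (cyl a n ∩ F) = ∑ e, Q (cyl (update a n e) (n + 1) ∩ F) := by
  rw [← tsum_fintype (L := .unconditional E), ← measure_iUnion]
  · congr 1
    ext b
    simp only [mem_inter_iff, mem_iUnion]
    refine ⟨fun h => ⟨b n, fun i hi => ?_, h.2⟩, fun ⟨e, h, h'⟩ => ⟨fun i hi => ?_, h'⟩⟩
    · rcases (Nat.lt_succ_iff.1 hi).eq_or_lt with rfl | l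
      · simp
      · rw [update_of_ne l.ne, h.1 i l]
    · rw [h i (by omega), update_of_ne hi.ne]
  · intro e e' hne
    refine disjoint_left.2 fun b h h' => hne ?_
    have := (h.1 n (by omega)).symm.trans (h'.1 n (by omega))
    simpa using this
  · exact fun e => (cyl_meas _ _).inter hF

lemma many [IsProbabilityMeasure Q] (Y : ℕ → Set (ℕ → E)) {q : ℕ}
    (h : ∀ S : Finset ℕ, Q (⋂ k ∈ S, Y k) ≤ ((4⁻¹) ^ q) ^ S.card) :
    ∀ᵐ a ∂Q, ∀ᶠ J in atTop, q * {k | k < J ∧ a ∈ Y k}.ncard < J := by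
  have := ae_eventually_notMem (μ := Q) (s := fun J => {a | J ≤ q * {k | k < J ∧ a ∈ Y k}.ncard})
    (ne_top_of_le_ne_top (b := ∑' J, (2⁻¹ : ℝ≥0∞) ^ J) (by simp) (ENNReal.tsum_le_tsum fun J => ?_))
  · simpa using this
  classical
  calc _ ≤ Q (⋃ S ∈ (Finset.range J).powerset.filter fun S => J ≤ q * S.card, ⋂ k ∈ S, Y k) := by
        refine measure_mono fun a ha => mem_iUnion₂.2 ⟨(Finset.range J).filter fun k => a ∈ Y k, ?_, ?_⟩
        · rw [Finset.mem_filter]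
          refine ⟨by simp, ?_⟩
          rw [← ncard_coe_finset]
          refine le_of_le_of_eq ha ?_
          congr 2
          ext; simp
        · simp
    _ ≤ ∑ S ∈ (Finset.range J).powerset.filter fun S => J ≤ q * S.card, (4⁻¹ : ℝ≥0∞) ^ J := by
        refine (measure_biUnion_finset_le _ _).trans (Finset.sum_le_sum fun S hS => (h S).trans ?_)
        rw [← pow_mul]
        exact pow_le_pow_right_of_le_one' (by simp) (Finset.mem_filter.1 hS).2
    _ ≤ ∑ S ∈ (Finset.range J).powerset, (4⁻¹ : ℝ≥0∞) ^ J :=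
        Finset.sum_le_sum_of_subset (Finset.filter_subset _ _)
    _ = _ := by
        simp only [Finset.sum_const, Finset.card_powerset, Finset.card_range, nsmul_eq_mul]
        push_cast
        rw [← mul_pow]
        congr 1
        rw [show (4 : ℝ≥0∞) = 2 * 2 by norm_num, ENNReal.mul_inv (by simp) (by simp), ← mul_assoc,
          ENNReal.mul_inv_cancel (by simp) (by simp), one_mul]

end Pool.Agent.H.MP_f4733e_pr
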