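import Mathlib
import Pool.Agent.H.MP_f4733e_pr.A

open MeasureTheory Filter Topology Set Function
open scoped ENNReal

namespace Pool.Agent.H.MP_f4733e_pr

variable {E : Type} (η : E → ℝ)

def x (a : ℕ → E) (n : ℕ) : ℝ := ∑ i ∈ Finset.range n, η (a i)

def sh (s : ℕ) (a : ℕ → E) : ℕ → E := fun i => a (s + i)

def G (j N : ℕ) : Set (ℕ → E) := {b | ∀ i, j ≤ i → i < j + N → 0 ≤ x η b i}

def Gi (j : ℕ) : Set (ℕ → E) := {b | ∀ i, j ≤ i → 0 ≤ x η b i}

def Rec (a : ℕ → E) (m s : ℕ) : Prop := m ≤ x η a s ∧ ∀ i < s, x η a i < m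

variable {η}

lemma x_sh (a : ℕ → E) (s n : ℕ) : x η (sh s a) n = x η a (s + n) - x η a s := by
  simp [x, sh, Finset.sum_range_add]

lemma x_congr {a b : ℕ → E} {n k : ℕ} (h : b ∈ cyl a n) (hk : k ≤ n) : x η b k = x η a k :=
  Finset.sum_congr rfl fun i hi => by rw [h i ((Finset.mem_range.1 hi).trans_le hk)]

lemma sh_cyl {a b : ℕ → E} {s j : ℕ} (h : b ∈ cyl a (s + j)) : sh s b ∈ cyl (sh s a) j :=
  fun i hi => h _ (by omega)

lemma x_le (hη : ∀ e, |η e| ≤ 1) (a : ℕ → E) (s n : ℕ) : |x η a (s + n) - x η a s| ≤ n := by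
  rw [← x_sh]
  refine (Finset.abs_sum_le_sum_abs _ _).trans ((Finset.sum_le_sum fun i _ => hη _).trans (by simp))

lemma Rec.congr {a b : ℕ → E} {m s n : ℕ} (h : Rec η a m s) (hb : b ∈ cyl a n) (hs : s ≤ n) :
    Rec η b m s :=
  ⟨by rw [x_congr hb hs]; exact h.1, fun i hi => by rw [x_congr hb (by omega)]; exact h.2 i hi⟩

lemma Rec.le {a : ℕ → E} {m s m' s' : ℕ} (h : Rec η a m s) (h' : Rec η a m' s') (hm : m ≤ m') :
    s ≤ s' := not_lt.1 fun l => by
  have : (m : ℝ) ≤ m' := by exact_mod_cast hm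
  linarith [h.2 _ l, h'.1]

lemma Rec.lt (hη : ∀ e, |η e| ≤ 1) {a : ℕ → E} {m s : ℕ} (h : Rec η a m s) : x η a s < m + 1 := by
  cases s with
  | zero => simp only [x, Finset.range_zero, Finset.sum_empty]; positivity
  | succ s => linarith [h.2 s (by omega), (abs_le.1 (x_le hη a s 1)).2, Nat.cast_one (R := ℝ)]

lemma Rec.gap (hη : ∀ e, |η e| ≤ 1) {a : ℕ → E} {m s N s' : ℕ} (h : Rec η a m s)
    (h' : Rec η a (m + N + 1) s') : s + N ≤ s' := by
  obtain ⟨k, rfl⟩ := Nat.exists_eq_add_of_le (h.le h' (by omega))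
  have := (abs_le.1 (x_le hη a s k)).2
  have h1 := h'.1
  push_cast at h1
  have : (N : ℝ) ≤ k := by linarith [h.lt hη]
  have : N ≤ k := by exact_mod_cast this
  omega

variable [Finite E] [MeasurableSpace E] [MeasurableSingletonClass E]

lemma x_meas (n : ℕ) : Measurable fun a => x η a n :=
  Finset.measurable_sum _ fun i _ => (measurable_of_finite η).comp (measurable_pi_apply i)

lemma sh_meas (s : ℕ) : Measurable (sh s : (ℕ → E) → _) := by unfold sh; fun_prop

lemma G_meas (j N : ℕ) : MeasurableSet (G η j N) := by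
  have := x_meas (η := η)
  unfold G; measurability

variable (η) (Q : Measure (ℕ → E))

def Key : Prop := ∀ a s j k, j ≤ k → (∀ i < s, x η a i < x η a s) →
  (∀ i, j ≤ i → i < k → 0 ≤ x η (sh s a) i) →
  Q (cyl a (s + k)) * Q (cyl (sh s a) j) = Q (cyl a (s + j)) * Q (cyl (sh s a) k)

def Y (l K N m : ℕ) : Set (ℕ → E) := {a | ∃ s j, Rec η a m s ∧ Rec η a (m + l) (s + j) ∧ j ≤ K ∧
  Q (cyl (sh s a) j ∩ Gi η j) = 0 ∧ sh s a ∈ G η j N}

variable {η Q}

lemma Key.fin (h : Key η Q) (N : ℕ) : ∀ a s j k, j ≤ k → (∀ i < s, x η a i < x η a s) →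
    (∀ i, j ≤ i → i < k → 0 ≤ x η (sh s a) i) → Q (cyl a (s + k) ∩ sh s ⁻¹' G η k N) *
      Q (cyl (sh s a) j) = Q (cyl a (s + j)) * Q (cyl (sh s a) k ∩ G η k N) := by
  induction N with
  | zero =>
    intro a s j k h1 h2 h3
    have : G η k 0 = univ := eq_univ_of_forall fun b i h h' => by omega
    simpa [this] using h a s j k h1 h2 h3
  | succ N ih =>
    intro a s j k h1 h2 h3
    by_cases h0 : 0 ≤ x η (sh s a) k
    · cases nonempty_fintype E
      have e : ∀ b ∈ cyl (sh s a) k, b ∈ G η k (N + 1) ↔ b ∈ G η (k + 1) N := fun b hb =>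
        ⟨fun h i l l' => h i (by omega) (by omega), fun h i l l' => by
          rcases l.eq_or_lt with rfl | l
          · rwa [x_congr hb le_rfl]
          · exact h i l (by omega)⟩
      have e1 : cyl (sh s a) k ∩ G η k (N + 1) = cyl (sh s a) k ∩ G η (k + 1) N := by
        ext b; exact and_congr_right (e b)
      have e2 : cyl a (s + k) ∩ sh s ⁻¹' G η k (N + 1) = cyl a (s + k) ∩ sh s ⁻¹' G η (k + 1) N := by
        ext b; exact and_congr_right fun hb => e _ (sh_cyl hb)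
      rw [e1, e2, split Q _ _ (G_meas _ _), split Q _ _ (sh_meas s (G_meas _ _)), Finset.sum_mul,
        Finset.mul_sum]
      refine Finset.sum_congr rfl fun c _ => ?_
      have m1 : update a (s + k) c ∈ cyl a (s + k) := fun i hi => update_of_ne hi.ne _ _
      have m2 : sh s (update a (s + k) c) = update (sh s a) k c := by
        funext i
        by_cases hi : i = k <;> simp [sh, hi]
      have := ih (update a (s + k) c) s j (k + 1) (by omega) (fun i hi => by
        rw [x_congr m1 (by omega), x_congr m1 (by omega)]; exact h2 i hi) fun i l l' => by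
          rw [x_congr (sh_cyl m1) (by omega)]
          rcases (Nat.lt_succ_iff.1 l').eq_or_lt with rfl | l'
          exacts [h0, h3 i l l']
      rwa [cyl_eq (cyl_mono m1 (by omega : s + j ≤ s + k)), cyl_eq (cyl_mono (sh_cyl m1) h1),
        m2] at this
    · have e : ∀ b ∈ cyl (sh s a) k, b ∉ G η k (N + 1) := fun b hb h =>
        h0 (by rw [← x_congr hb le_rfl]; exact h k le_rfl (by omega))
      rw [eq_empty_of_forall_notMem (s := cyl a (s + k) ∩ sh s ⁻¹' G η k (N + 1)) fun b hb => e _ (sh_cyl hb.1) hb.2,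
        eq_empty_of_forall_notMem (s := cyl (sh s a) k ∩ G η k (N + 1)) fun b hb => e _ hb.1 hb.2]
      simp

lemma Rec.rec {a : ℕ → E} {m s : ℕ} (h : Rec η a m s) : ∀ i < s, x η a i < x η a s :=
  fun i hi => (h.2 i hi).trans_le h.1

variable [IsProbabilityMeasure Q]

lemma G_lim {T : Set (ℕ → E)} (hT : MeasurableSet T) (s j : ℕ) :
    Tendsto (fun N => Q (T ∩ sh s ⁻¹' G η j N)) atTop (𝓝 (Q (T ∩ sh s ⁻¹' Gi η j))) := by
  have : T ∩ sh s ⁻¹' Gi η j = ⋂ N, T ∩ sh s ⁻¹' G η j N := by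
    ext b
    simp only [mem_iInter, mem_inter_iff]
    exact ⟨fun h N => ⟨h.1, fun i l _ => h.2 i l⟩,
      fun h => ⟨(h 0).1, fun i l => (h (i + 1)).2 i l (by omega)⟩⟩
  rw [this]
  exact tendsto_measure_iInter_atTop
    (fun N => (hT.inter (sh_meas s (G_meas _ _))).nullMeasurableSet)
    (fun N N' l b hb => ⟨hb.1, fun i h h' => hb.2 i h (by omega)⟩) ⟨0, measure_ne_top _ _⟩

lemma sh_zero : sh 0 = (id : (ℕ → E) → _) := by funext a i; simp [sh]

lemma good (h : Key η Q) (hp : ∀ a n, Q (cyl a n) ≠ 0) : ∀ᵐ a ∂Q, ¬ Tendsto (x η a) atTop atTop →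
    ∀ K, ∀ᶠ m in atTop, ∀ s, ∀ j ≤ K, Rec η a m s → Q (cyl (sh s a) j ∩ Gi η j) = 0 := by
  have hm := x_meas (η := η)
  have := ae_all_iff.2 fun p : ℕ × ℕ => levy Q (F := {a | ∀ᶠ i in atTop, (p.1 : ℝ) ≤ x η a i})
    (by simp only [eventually_atTop]; measurability) (ENNReal.natCast_ne_top p.2)
  filter_upwards [this] with a ha hn K
  obtain ⟨A, hA⟩ : ∃ A : ℕ, ¬ ∀ᶠ i in atTop, (A : ℝ) ≤ x η a i := by
    by_contra! l
    refine hn (tendsto_atTop.2 fun b => ?_)
    obtain ⟨A, hA⟩ := exists_nat_ge b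
    exact (l A).mono fun i hi => hA.trans hi
  obtain ⟨c, hc⟩ := (fin_pat (fun C j (c : ℕ) => Q (C ∩ Gi η j) ≠ 0 → 1 ≤ c * Q (C ∩ Gi η j)) atTop
    (fun b j => by
      by_cases h0 : Q (cyl b j ∩ Gi η j) = 0
      · simp [h0]
      · exact ((ENNReal.Tendsto.mul_const ENNReal.tendsto_nat_nhds_top (.inl (by simp))).eventually
          (lt_mem_nhds (by rw [ENNReal.top_mul h0]; exact ENNReal.one_lt_top))).mono
          fun c hc _ => hc.le) K).exists
  obtain ⟨n₀, hn₀⟩ := eventually_atTop.1 (ha (A, c) hA)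
  filter_upwards [eventually_ge_atTop (max A n₀ + ⌈∑ i ∈ Finset.range n₀, |x η a i|⌉₊ + 1)]
    with m hm s j hj hs
  by_contra h0
  have m1 : (max A n₀ + ⌈∑ i ∈ Finset.range n₀, |x η a i|⌉₊ + 1 : ℕ) ≤ x η a s :=
    le_trans (by exact_mod_cast hm) hs.1
  have s1 : n₀ ≤ s := not_lt.1 fun l => by
    have := Finset.single_le_sum (f := fun i => |x η a i|) (fun i _ => abs_nonneg _)
      (Finset.mem_range.2 l)
    push_cast at m1
    linarith [Nat.le_ceil (∑ i ∈ Finset.range n₀, |x η a i|), le_abs_self (x η a s),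
      le_max_right (A : ℝ) n₀, Nat.cast_nonneg (α := ℝ) n₀]
  refine (hn₀ (s + j) (by omega)).not_ge ?_
  have k := tendsto_nhds_unique (ENNReal.Tendsto.mul_const (G_lim (η := η) (Q := Q)
    (cyl_meas a (s + j)) s j) (.inr (measure_ne_top Q (cyl (sh s a) j))))
    ((ENNReal.Tendsto.const_mul (G_lim (η := η) (Q := Q) (cyl_meas (sh s a) j) 0 j)
      (.inr (measure_ne_top Q (cyl a (s + j))))).congr fun N => by
        rw [h.fin N a s j j le_rfl hs.rec (fun i _ _ => by omega), sh_zero]; rfl)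
  rw [sh_zero, preimage_id] at k
  calc _ ≤ Q (cyl a (s + j)) * (c * Q (cyl (sh s a) j ∩ Gi η j)) :=
        le_mul_of_one_le_right zero_le (hc _ j hj h0)
    _ = c * (Q (cyl a (s + j) ∩ sh s ⁻¹' Gi η j) * Q (cyl (sh s a) j)) := by rw [k]; ring
    _ ≤ _ := by
      refine mul_le_mul_right ((mul_le_of_le_one_right zero_le prob_le_one).trans
        (measure_mono fun b hb => ?_)) _
      refine ⟨hb.1, eventually_atTop.2 ⟨s + j, fun i hi => ?_⟩⟩
      obtain ⟨i, rfl⟩ := Nat.exists_eq_add_of_le ((Nat.le_add_right s j).trans hi)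
      have := hb.2 i (by omega)
      rw [x_sh, x_congr hb.1 (Nat.le_add_right s j)] at this
      push_cast at m1
      linarith [le_max_left (A : ℝ) n₀, Nat.cast_nonneg (α := ℝ) ⌈∑ i ∈ Finset.range n₀, |x η a i|⌉₊]

lemma rare (hη : ∀ e, |η e| ≤ 1) (h : Key η Q) (hp : ∀ a n, Q (cyl a n) ≠ 0) (l K q : ℕ) :
    ∃ N, ∀ᵐ a ∂Q, ∀ r, ∀ᶠ J in atTop, q * {k | k < J ∧ a ∈ Y η Q l K N (r + k * (N + 1))}.ncard < J := by
  obtain ⟨N, hN⟩ := (fin_pat (fun C j N => Q (C ∩ Gi η j) = 0 → Q (C ∩ G η j N) ≤ 4⁻¹ ^ q * Q C) atTop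
    (fun b j => by
      by_cases h0 : Q (cyl b j ∩ Gi η j) = 0
      · have := G_lim (η := η) (Q := Q) (cyl_meas b j) 0 j
        simp only [sh_zero, preimage_id, h0] at this
        exact (this.eventually (gt_mem_nhds (ENNReal.mul_pos (by simp) (hp b j)))).mono
          fun N hN _ => hN.le
      · simp [h0]) K).exists
  refine ⟨N, ae_all_iff.2 fun r => many Q _ fun S => ?_⟩
  induction S using Finset.induction_on_max with
  | empty => simp
  | insert k S hk ih =>
    rw [Finset.card_insert_of_notMem fun h => lt_irrefl _ (hk k h), pow_succ', Finset.set_biInter_insert]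
    have := stop Q (fun a n => Rec η a (r + k * (N + 1) + l) n ∧ a ∈ ⋂ i ∈ S, Y η Q l K N (r + i * (N + 1)))
      (fun a b n ⟨h1, h2⟩ hb => ⟨h1.congr hb le_rfl, mem_iInter₂.2 fun i hi => ?_⟩)
      (fun a n n' h h' => le_antisymm (h.1.le h'.1 le_rfl) (h'.1.le h.1 le_rfl))
      (F := Y η Q l K N (r + k * (N + 1))) .univ (c := 4⁻¹ ^ q) fun a n ha => ?_
    · refine le_trans (measure_mono fun a ha => ?_) (this.trans (mul_le_mul_right
        ((measure_mono fun a ha => ?_).trans ih) _))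
      · refine ⟨?_, ha.1⟩
        obtain ⟨⟨s, j, -, h, -⟩, h'⟩ := ha
        exact ⟨_, h, h'⟩
      · obtain ⟨⟨n, h⟩, -⟩ := ha
        exact h.2
    · obtain ⟨s, j, a1, a2, a3, a4, a5⟩ := mem_iInter₂.1 h2 i hi
      have : s + j + N ≤ n := by
        obtain ⟨t, ht⟩ := Nat.exists_eq_add_of_lt (hk i hi)
        have := a2.gap hη (N := N + t * (N + 1)) (s' := n) (by convert h1 using 1; rw [ht]; ring)
        omega
      have m := sh_cyl (cyl_mono hb (by omega : s + (j + N) ≤ n))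
      refine ⟨s, j, a1.congr hb (by omega), a2.congr hb (by omega), a3, ?_, fun i l l' => ?_⟩
      · rwa [cyl_eq (cyl_mono m (by omega))]
      · rw [x_congr m l'.le]; exact a5 i l l'
    · rcases (cyl a n ∩ Y η Q l K N (r + k * (N + 1))).eq_empty_or_nonempty with e | ⟨b, hb, s, j, a1, a2, a3, a4, -⟩
      · simp [e]
      have r1 := ha.1.congr hb le_rfl
      obtain rfl : n = s + j := le_antisymm (r1.le a2 le_rfl) (a2.le r1 le_rfl)
      rw [inter_univ, ← cyl_eq hb]
      refine (measure_mono (t := cyl b (s + j) ∩ sh s ⁻¹' G η j N) ?_).trans ?_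
      · rintro c ⟨hc, s', j', b1, b2, -, -, b5⟩
        have c1 := a1.congr hc (by omega)
        have c2 := a2.congr hc le_rfl
        obtain rfl : s = s' := le_antisymm (c1.le b1 le_rfl) (b1.le c1 le_rfl)
        obtain rfl : j = j' := by have := c2.le b2 le_rfl; have := b2.le c2 le_rfl; omega
        exact ⟨hc, b5⟩
      · rw [← ENNReal.mul_le_mul_iff_left (hp (sh s b) j) (measure_ne_top _ _),
          h.fin N b s j j le_rfl a1.rec (fun i _ _ => by omega), mul_assoc, mul_left_comm]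
        exact mul_le_mul_right (hN _ j a3 a4) _

end Pool.Agent.H.MP_f4733e_pr
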