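import Mathlib
import Pool.Agent.H.MP_f4733e_pr.B

open MeasureTheory Filter Topology Finset Function

namespace Pool.Agent.H.MP_f4733e_pr

lemma tele {T : ℕ → ℕ} (h : Monotone T) (M l : ℕ) :
    ∑ m ∈ range M, T (m + l) ≤ ∑ m ∈ range M, T m + l * T (M + l) := by
  induction l with
  | zero => simp
  | succ l ih =>
    have h1 := sum_range_succ (fun m => T (m + l)) M
    have h2 := sum_range_succ' (fun m => T (m + l)) M
    simp only [add_assoc, add_comm 1 l] at h2
    have h3 : T (M + l) ≤ T (M + (l + 1)) := h (by omega)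
    nlinarith [Nat.zero_le (T (0 + l))]

lemma resid (p : ℕ → Prop) [DecidablePred p] {q P : ℕ} (hP : 0 < P)
    (h : ∀ r, ∀ᶠ J in atTop, q * {k | k < J ∧ p (r + k * P)}.ncard < J) :
    ∀ᶠ M in atTop, q * #{m ∈ range M | p m} ≤ 2 * M := by
  have t : Tendsto (fun M => M / P + 1) atTop atTop :=
    (tendsto_add_atTop_nat 1).comp (Nat.tendsto_div_const_atTop hP.ne')
  filter_upwards [t.eventually ((eventually_all_finset (range P)).2 fun r _ => h r),
    eventually_ge_atTop P] with M hM hM'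
  have h1 : #{m ∈ range M | p m} ≤ ∑ r ∈ range P, #{k ∈ range (M / P + 1) | p (r + k * P)} := by
    refine le_trans (card_le_card (t := (range P).biUnion fun r =>
      ({k ∈ range (M / P + 1) | p (r + k * P)}).image fun k => r + k * P) fun m hm => ?_)
      (card_biUnion_le.trans (sum_le_sum fun r _ => card_image_le))
    simp only [mem_filter, mem_range, mem_biUnion, mem_image] at hm ⊢
    exact ⟨m % P, Nat.mod_lt _ hP, m / P, ⟨Nat.lt_succ_of_le (Nat.div_le_div_right hm.1.le),
      by rw [Nat.mod_add_div']; exact hm.2⟩, Nat.mod_add_div' _ _⟩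
  have h2 : ∑ r ∈ range P, q * #{k ∈ range (M / P + 1) | p (r + k * P)} ≤
      ∑ r ∈ range P, (M / P + 1) := sum_le_sum fun r hr => by
    refine le_of_eq_of_le ?_ (hM r hr).le
    rw [← Set.ncard_coe_finset]
    congr 2
    ext; simp
  rw [← mul_sum, sum_const, card_range, smul_eq_mul] at h2
  have := Nat.mul_div_le M P
  nlinarith [Nat.mul_le_mul_left q h1]

variable {E : Type} {η : E → ℝ} [MeasurableSpace E] {Q : Measure (ℕ → E)}

lemma det (hη : ∀ e, |η e| ≤ 1) (a : ℕ → E)
    (hg : ∀ K, ∀ᶠ m in atTop, ∀ s, ∀ j ≤ K, Rec η a m s → Q (cyl (sh s a) j ∩ Gi η j) = 0)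
    (hr : ∀ l K q, ∃ N, ∀ r, ∀ᶠ J in atTop,
      q * {k | k < J ∧ a ∈ Y η Q l K N (r + k * (N + 1))}.ncard < J) {c : ℝ} (hc : 0 < c) :
    ∀ᶠ n : ℕ in atTop, x η a n ≤ c * n := by
  classical
  by_contra! hn
  have hb : ∀ m : ℕ, ∃ n : ℕ, m ≤ x η a n ∧ c * n < x η a n := fun m => by
    obtain ⟨n, h1, h2⟩ := (hn.and_eventually ((tendsto_natCast_atTop_atTop.const_mul_atTop
      hc).eventually_ge_atTop (m : ℝ))).exists
    exact ⟨n, h2.trans h1.le, h1⟩
  have hb' : ∀ m : ℕ, ∃ n, m ≤ x η a n := fun m => (hb m).imp fun _ h => h.1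
  obtain ⟨T, hT⟩ : ∃ T : ℕ → ℕ, ∀ m, Rec η a m (T m) :=
    ⟨fun m => Nat.find (hb' m), fun m => ⟨Nat.find_spec (hb' m),
      fun i hi => not_le.1 (Nat.find_min (hb' m) hi)⟩⟩
  have Tm : Monotone T := fun m m' h => (hT m).le (hT m') h
  let V : ℕ → ℕ → ℕ := fun m t => #{i ∈ range t | (m : ℝ) - 1 ≤ x η a i ∧ x η a i < m + 1}
  have key : ∀ k : ℕ, ∀ ε > 0, ∃ l, ∀ᶠ M : ℕ in atTop, (T (M + l) : ℝ) ≤ 2 / c * M →
      (#{m ∈ range M | V m (T (m + l)) < k} : ℝ) ≤ ε * M := by
    intro k
    induction k with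
    | zero => exact fun ε hε => ⟨0, .of_forall fun M _ => by simp; positivity⟩
    | succ k ih =>
      intro ε hε
      obtain ⟨l, hl⟩ := ih (ε / 4) (by positivity)
      obtain ⟨K, hK⟩ := exists_nat_gt (l * (2 / c) / (ε / 4))
      obtain ⟨q, hq⟩ := exists_nat_gt (8 / ε)
      obtain ⟨N, hN⟩ := hr l K q
      obtain ⟨m₀, hm₀⟩ := eventually_atTop.1 (hg K)
      refine ⟨l + N + 1, ?_⟩
      filter_upwards [hl, resid (fun m => a ∈ Y η Q l K N m) (Nat.succ_pos N) hN,
        (tendsto_natCast_atTop_atTop.const_mul_atTop (by positivity : 0 < ε / 4)).eventually_ge_atTop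
          (m₀ : ℝ)] with M h1 h2 h3 h4
      have h5 : (T (M + l) : ℝ) ≤ 2 / c * M :=
        le_trans (by exact_mod_cast Tm (by omega)) h4
      have s1 : {m ∈ range M | V m (T (m + (l + N + 1))) < k + 1} ⊆
          {m ∈ range M | V m (T (m + l)) < k} ∪ {m ∈ range M | T m + K < T (m + l)} ∪ range m₀ ∪
            {m ∈ range M | a ∈ Y η Q l K N m} := by
        intro m hm
        simp only [mem_filter, mem_union, mem_range] at hm ⊢
        by_contra! h
        obtain ⟨⟨⟨b1, b2⟩, b3⟩, b4⟩ := h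
        obtain ⟨j, hj⟩ := Nat.exists_eq_add_of_le (Tm (Nat.le_add_right m l))
        have j1 : j ≤ K := by have := b2 hm.1; omega
        refine b4 hm.1 ⟨T m, j, hT m, hj ▸ hT (m + l), j1, hm₀ m b3 _ j j1 (hT m), ?_⟩
        by_contra l1
        have ex : ∃ i, j ≤ i ∧ i < j + N ∧ x η (sh (T m) a) i < 0 := by simpa [G] using l1
        obtain ⟨i, ⟨i1, i2, i3⟩, i4⟩ := Nat.findX ex
        have g1 := (hT (m + l)).gap hη (hT (m + l + N + 1))
        have g2 : j < i := i1.lt_of_ne fun e => by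
          rw [← e, x_sh, ← hj] at i3
          rcases (Tm (Nat.le_add_right m l)).eq_or_lt with e | e
          · simp [e] at i3
          · linarith [(hT (m + l)).2 _ e, (hT (m + l)).1]
        obtain ⟨i, rfl⟩ := Nat.exists_eq_add_of_le' (Nat.one_le_of_lt g2)
        have g3 : 0 ≤ x η (sh (T m) a) i := not_lt.1 fun e => i4 i (by omega) ⟨by omega, by omega, e⟩
        rw [x_sh] at g3 i3
        have g4 := (abs_le.1 (x_le hη a (T m + i) 1)).1
        have : V m (T (m + l)) < V m (T (m + (l + N + 1))) := by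
          refine card_lt_card ⟨filter_subset_filter _ (range_mono (Tm (by omega))),
            fun e => ?_⟩
          have := e (x := T m + (i + 1)) (mem_filter.2 ⟨mem_range.2 (by
            rw [← add_assoc m, ← add_assoc m]; omega), by
            rw [add_assoc, Nat.cast_one] at g4; linarith [(hT m).1], by linarith [(hT m).lt hη]⟩)
          have := mem_range.1 (mem_filter.1 this).1
          omega
        have := b1 hm.1
        omega
      have s2 : K * #{m ∈ range M | T m + K < T (m + l)} ≤ l * T (M + l) := by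
        have := tele Tm M l
        have h6 : ∑ m ∈ range M, (T m + if T m + K < T (m + l) then K else 0) ≤
            ∑ m ∈ range M, T (m + l) := sum_le_sum fun m _ => by
          have := Tm (Nat.le_add_right m l)
          split_ifs <;> omega
        rw [sum_add_distrib, ← sum_filter, sum_const, smul_eq_mul] at h6
        linarith
      have s3 := (card_le_card s1).trans ((card_union_le _ _).trans (add_le_add_left
        ((card_union_le _ _).trans (add_le_add_left (card_union_le _ _) _)) _))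
      rw [card_range] at s3
      have s3 : (_ : ℝ) ≤ _ := Nat.cast_le.2 s3
      have s2 : (_ : ℝ) ≤ _ := Nat.cast_le.2 s2
      have h2 : (_ : ℝ) ≤ _ := Nat.cast_le.2 h2
      push_cast at s2 s3 h2
      have M0 : (0 : ℝ) ≤ M := Nat.cast_nonneg M
      have K0 : (0 : ℝ) < K := lt_of_le_of_lt (by positivity) hK
      have q0 : (0 : ℝ) < q := lt_of_le_of_lt (by positivity) hq
      rw [div_lt_iff₀ (by positivity)] at hK hq
      have t1 := mul_le_mul_of_nonneg_left h5 (Nat.cast_nonneg (α := ℝ) l)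
      have t2 : (#{m ∈ range M | T m + K < T (m + l)} : ℝ) ≤ ε / 4 * M :=
        le_of_mul_le_mul_left (by nlinarith) K0
      have t3 : (#{m ∈ range M | a ∈ Y η Q l K N m} : ℝ) ≤ ε / 4 * M :=
        le_of_mul_le_mul_left (by nlinarith) q0
      linarith [h1 h5]
  obtain ⟨k, hk⟩ := exists_nat_gt (8 / c)
  obtain ⟨l, hl⟩ := key k (1 / 2) (by norm_num)
  obtain ⟨M₀, hM₀⟩ := eventually_atTop.1 hl
  obtain ⟨n, n1, n2⟩ := hb (M₀ + l + 1 + l)
  obtain ⟨M, hM⟩ := Nat.exists_eq_add_of_le' ((Nat.le_add_left l _).trans (Nat.le_floor n1))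
  have M1 : M₀ + l + 1 ≤ M := by have := Nat.le_floor n1; omega
  have M2 : (l + 1 : ℝ) ≤ M := by exact_mod_cast (by omega : l + 1 ≤ M)
  have t1 : (T (M + l) : ℝ) ≤ 2 / c * M := by
    have : T (M + l) ≤ n := not_lt.1 fun e => by
      have := (hT (M + l)).2 n e
      rw [← hM] at this
      linarith [Nat.floor_le ((Nat.cast_nonneg _).trans n1)]
    have : (T (M + l) : ℝ) ≤ n := by exact_mod_cast this
    have e := Nat.lt_floor_add_one (x η a n)
    rw [hM] at e
    push_cast at e
    rw [div_mul_eq_mul_div, le_div_iff₀ hc]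
    nlinarith
  have t2 := hM₀ M (by omega) t1
  have t3 : ∑ m ∈ range M, V m (T (M + l)) ≤ 2 * T (M + l) := by
    simp only [V, card_filter]
    rw [sum_comm]
    refine (sum_le_card_nsmul _ _ 2 fun i _ => ?_).trans (by simp [mul_comm])
    rw [← card_filter]
    refine (card_le_card (t := {⌊x η a i⌋₊, ⌊x η a i⌋₊ + 1}) fun m hm => ?_).trans card_le_two
    obtain ⟨-, u1, u2⟩ := mem_filter.1 hm
    have v1 : ⌊x η a i⌋₊ < m + 1 := (Nat.floor_lt' (by omega)).2 (by exact_mod_cast u2)
    have v2 : (m : ℝ) < ⌊x η a i⌋₊ + 2 := by linarith [Nat.lt_floor_add_one (x η a i)]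
    have v2 : m < ⌊x η a i⌋₊ + 2 := by exact_mod_cast v2
    simp only [mem_insert, mem_singleton]
    omega
  have t4 : ∑ m ∈ range M, k ≤ ∑ m ∈ range M,
      (V m (T (M + l)) + if V m (T (m + l)) < k then k else 0) := sum_le_sum fun m hm => by
    have : V m (T (m + l)) ≤ V m (T (M + l)) :=
      card_le_card (filter_subset_filter _ (range_mono (Tm (by have := mem_range.1 hm; omega))))
    split_ifs <;> omega
  rw [sum_add_distrib, ← sum_filter, sum_const, sum_const, smul_eq_mul, smul_eq_mul,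
    card_range] at t4
  have t5 : (_ : ℝ) ≤ _ := Nat.cast_le.2 (t4.trans (add_le_add_left t3 _))
  push_cast at t5
  have t6 := mul_le_mul_of_nonneg_right t2 (Nat.cast_nonneg (α := ℝ) k)
  have : 8 / c = 4 * (2 / c) := by ring
  nlinarith [Nat.cast_nonneg (α := ℝ) l]

theorem abstr [Finite E] [MeasurableSingletonClass E] [IsProbabilityMeasure Q]
    (hη : ∀ e, |η e| ≤ 1) (h : Key η Q) (hp : ∀ a n, Q (cyl a n) ≠ 0) :
    ∀ᵐ a ∂Q, ¬ Tendsto (x η a) atTop atTop → ∀ c > 0, ∀ᶠ n : ℕ in atTop, x η a n ≤ c * n := by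
  choose N hN using rare hη h hp
  filter_upwards [good h hp, ae_all_iff.2 fun p : ℕ × ℕ × ℕ => hN p.1 p.2.1 p.2.2]
    with a h1 h2 hn c hc
  exact det hη a (h1 hn) (fun l K q => ⟨_, h2 (l, K, q)⟩) hc

end Pool.Agent.H.MP_f4733e_pr
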