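import Mathlib
import Pool.Agent.H.MP_f4733e_pr.C

open MeasureTheory ProbabilityTheory Filter Topology Finset Function
open scoped ENNReal

namespace Pool.Agent.H.MP_f4733e_pr

variable {E A : Type} [AddCommGroup A] [DecidableEq A] (dir : E → A)

def pos (a : ℕ → E) (n : ℕ) : A := ∑ i ∈ range n, dir (a i)

def cnt (a : ℕ → E) (n : ℕ) : ℕ := #{i ∈ range n | pos dir a i = pos dir a n}

lemma pos_sh (a : ℕ → E) (s n : ℕ) : pos dir a (s + n) = pos dir a s + pos dir (sh s a) n := by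
  simp [pos, sh, sum_range_add]

variable {S : Type} [MeasurableSpace S] (ν : Measure S) (f : S → ℕ → E → ℝ≥0∞)

noncomputable def W (a : ℕ → E) (n : ℕ) (z : A) : ℝ≥0∞ :=
  ∫⁻ σ, ∏ i ∈ range n with pos dir a i = z, f σ (cnt dir a i) (a i) ∂ν

lemma W_sh (a : ℕ → E) (s n : ℕ) (z : A) (h : ∀ i < s, pos dir a i ≠ pos dir a s + z) :
    W dir ν f a (s + n) (pos dir a s + z) = W dir ν f (sh s a) n z := by
  unfold W
  congr 1
  funext σ
  rw [prod_filter, prod_filter, prod_range_add, prod_eq_one fun i hi => if_neg (h i (mem_range.1 hi)),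
    one_mul]
  refine prod_congr rfl fun i _ => ?_
  simp only [pos_sh, add_right_inj]
  split_ifs with e
  · congr 1
    simp only [cnt, card_filter, sum_range_add, pos_sh, add_right_inj]
    rw [sum_eq_zero fun i hi => if_neg (e ▸ h i (mem_range.1 hi)), zero_add]
  · rfl

lemma W_stay (a : ℕ → E) {j k : ℕ} (z : A) (hjk : j ≤ k) (h : ∀ i, j ≤ i → i < k → pos dir a i ≠ z) :
    W dir ν f a k z = W dir ν f a j z := by
  have : {i ∈ range k | pos dir a i = z} = {i ∈ range j | pos dir a i = z} := by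
    ext i
    simp only [mem_filter, mem_range]
    exact ⟨fun l => ⟨not_le.1 fun e => h i e l.1 l.2, l.2⟩, fun l => ⟨l.1.trans_le hjk, l.2⟩⟩
  rw [W, W, this]

lemma key [MeasurableSpace E] (Q : Measure (ℕ → E)) (h : A →+ ℝ)
    (hQ : ∀ a n (Z : Finset A), (∀ i < n, pos dir a i ∈ Z) → Q (cyl a n) = ∏ z ∈ Z, W dir ν f a n z) :
    Key (fun e => h (dir e)) Q := by
  intro a s j k hjk h1 h2
  have hx : ∀ a n, x (fun e => h (dir e)) a n = h (pos dir a n) := fun a n => by simp [x, pos]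
  simp only [hx] at h1 h2
  let Z := (range (s + k)).image fun i => pos dir a i - pos dir a s
  have z1 : ∀ n ≤ k, Q (cyl a (s + n)) = ∏ z ∈ Z, W dir ν f a (s + n) (pos dir a s + z) := fun n hn => by
    rw [hQ a (s + n) (Z.image (pos dir a s + ·)) fun i hi => mem_image.2
      ⟨_, mem_image.2 ⟨i, mem_range.2 (by omega), rfl⟩, by simp⟩, prod_image (by simp)]
  have z2 : ∀ n ≤ k, Q (cyl (sh s a) n) = ∏ z ∈ Z, W dir ν f (sh s a) n z := fun n hn =>
    hQ _ n Z fun i hi => mem_image.2 ⟨s + i, mem_range.2 (by omega), by simp [pos_sh]⟩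
  rw [z1 k le_rfl, z1 j hjk, z2 k le_rfl, z2 j hjk, ← prod_mul_distrib, ← prod_mul_distrib]
  refine prod_congr rfl fun z _ => ?_
  by_cases hz : 0 ≤ h z
  · have : ∀ i < s, pos dir a i ≠ pos dir a s + z := fun i hi e => by
      have := h1 i hi
      rw [e, map_add] at this
      linarith
    rw [W_sh dir ν f a s k z this, W_sh dir ν f a s j z this, mul_comm]
  · rw [W_stay dir ν f (sh s a) z hjk fun i l l' e => hz (e ▸ h2 i l l'),
      W_stay dir ν f a _ (Nat.add_le_add_left hjk s) fun i l l' e => hz ?_]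
    obtain ⟨i, rfl⟩ := Nat.exists_eq_add_of_le ((Nat.le_add_right s j).trans l)
    rw [pos_sh, add_right_inj] at e
    exact e ▸ h2 i (by omega) (by omega)

def dv {d : ℕ} (e : Fin d × Bool) : Fin d → ℤ := Pi.single e.1 (if e.2 then 1 else -1)

lemma mf {d : ℕ} (i : ℕ) (e : Fin d × Bool) :
    Measurable fun σ : ℕ → stdSimplex ℝ (Fin d × Bool) => ENNReal.ofReal ((σ i).1 e) :=
  ((measurable_pi_apply e).comp (measurable_subtype_coe.comp (measurable_pi_apply i))).ennreal_ofReal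

lemma cyl_val {d : ℕ} (P : Measure ((Fin d → ℤ) → ℕ → stdSimplex ℝ (Fin d × Bool)))
    (κ : Kernel ((Fin d → ℤ) → ℕ → stdSimplex ℝ (Fin d × Bool)) (ℕ → Fin d × Bool)) [IsMarkovKernel κ]
    (hκ : ∀ ω a n, κ ω (cyl a (n + 1)) =
      κ ω (cyl a n) * ENNReal.ofReal ((ω (pos dv a n) (cnt dv a n)).1 (a n))) (a n) :
    (κ ∘ₘ P) (cyl a n) =
      ∫⁻ ω, ∏ i ∈ range n, ENNReal.ofReal ((ω (pos dv a i) (cnt dv a i)).1 (a i)) ∂P := by
  rw [Measure.bind_apply (cyl_meas a n) κ.aemeasurable]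
  congr 1
  funext ω
  induction n with
  | zero => simp [cyl]
  | succ n ih => rw [hκ, ih, prod_range_succ]

theorem main {d : ℕ} (P : Measure ((Fin d → ℤ) → ℕ → stdSimplex ℝ (Fin d × Bool)))
    [IsProbabilityMeasure P] (h1 : iIndepFun (fun z ω => ω z) P)
    (h2 : ∀ z, IdentDistrib (fun ω => ω z) (fun ω => ω 0) P P)
    (h3 : ∀ z i e, ∀ᵐ ω ∂P, 0 < (ω z i).1 e)
    (κ : Kernel ((Fin d → ℤ) → ℕ → stdSimplex ℝ (Fin d × Bool)) (ℕ → Fin d × Bool)) [IsMarkovKernel κ]
    (hκ : ∀ ω a n, κ ω (cyl a (n + 1)) =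
      κ ω (cyl a n) * ENNReal.ofReal ((ω (pos dv a n) (cnt dv a n)).1 (a n)))
    (l : Fin d → ℝ) : ∀ᵐ a ∂(κ ∘ₘ P),
      ¬ Tendsto (fun n => √(∑ i, (pos dv a n i : ℝ) ^ 2)) atTop atTop ∨
        ¬ Tendsto (fun n => |∑ i, pos dv a n i * l i|) atTop atTop →
      Tendsto (fun n : ℕ => (∑ i, pos dv a n i * l i) / n) atTop (𝓝 0) := by
  have hp : ∀ a n, (κ ∘ₘ P) (cyl a n) ≠ 0 := fun a n h => by
    rw [cyl_val P κ hκ, lintegral_eq_zero_iff (Finset.measurable_prod _ fun i _ => by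
      exact (mf _ _).comp (measurable_pi_apply _))] at h
    obtain ⟨ω, h, h'⟩ := (h.and (ae_all_iff.2 fun i => h3 (pos dv a i) (cnt dv a i) (a i))).exists
    exact prod_ne_zero_iff.2 (fun i _ => (ENNReal.ofReal_pos.2 (h' i)).ne') h
  have hQ : ∀ a n (Z : Finset (Fin d → ℤ)), (∀ i < n, pos dv a i ∈ Z) → (κ ∘ₘ P) (cyl a n) =
      ∏ z ∈ Z, W dv (P.map fun ω => ω 0) (fun σ i e => ENNReal.ofReal ((σ i).1 e)) a n z := by
    intro a n Z hZ
    let g : (Fin d → ℤ) → (ℕ → stdSimplex ℝ (Fin d × Bool)) → ℝ≥0∞ := fun z σ =>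
      ∏ i ∈ range n with pos dv a i = z, ENNReal.ofReal ((σ (cnt dv a i)).1 (a i))
    have hg : ∀ z, Measurable (g z) := fun z => Finset.measurable_prod _ fun i _ => mf _ _
    have := lintegral_prod_eq_prod_lintegral_of_indepFun Z _ (h1.comp g hg)
      fun z => (hg z).comp (measurable_pi_apply z)
    rw [cyl_val P κ hκ]
    convert this using 2 with ω z
    · funext ω
      rw [← prod_fiberwise_of_maps_to (g := pos dv a) (t := Z) fun i hi => hZ i (mem_range.1 hi)]
      exact prod_congr rfl fun z _ => prod_congr rfl fun i hi => by rw [(mem_filter.1 hi).2]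
    · rw [W, ← (h2 _).map_eq, lintegral_map (hg _) (measurable_pi_apply _)]
      rfl
  obtain ⟨B, B0, hB⟩ : ∃ B > 0, ∀ i, |l i| ≤ B :=
    ⟨‖l‖ + 1, by positivity, fun i => (norm_le_pi_norm l i).trans (by linarith)⟩
  have H : ∀ t : ℝ, |t| = 1 → ∀ᵐ a ∂(κ ∘ₘ P),
      ¬ Tendsto (fun n => |∑ i, pos dv a n i * l i|) atTop atTop →
      ∀ c > 0, ∀ᶠ n : ℕ in atTop, t * ∑ i, pos dv a n i * l i ≤ c * n := by
    intro t ht
    let h : (Fin d → ℤ) →+ ℝ :=
      { toFun := fun z => t / B * ∑ i, z i * l i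
        map_zero' := by simp
        map_add' := fun z w => by simp [add_mul, sum_add_distrib, mul_add] }
    have hx : ∀ a n, x (fun e => h (dv e)) a n = t / B * ∑ i, pos dv a n i * l i :=
      fun a n => (map_sum h _ _).symm
    refine (abstr (fun e => ?_) (key dv _ _ _ h hQ) hp).mono fun a ha hn c hc => ?_
    swap
    · refine (ha (fun e => hn ?_) (c / B) (by positivity)).mono fun n hn => ?_
      · refine tendsto_atTop_mono (fun n => ?_) (e.const_mul_atTop B0)
        rw [hx, ← mul_assoc, mul_div_cancel₀ _ B0.ne']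
        refine (le_abs_self _).trans ?_
        rw [abs_mul, ht, one_mul]
      · rw [hx, div_mul_eq_mul_div, div_mul_eq_mul_div] at hn
        exact (div_le_div_iff_of_pos_right B0).1 hn
    · show |t / B * ∑ i, (dv e i : ℝ) * l i| ≤ 1
      rw [sum_eq_single e.1 (fun i _ hi => by simp [dv, hi]) (by simp), abs_mul, abs_div, ht, abs_mul,
        abs_of_pos B0, div_mul_eq_mul_div, div_le_one B0]
      have := hB e.1
      cases h : e.2 <;> simpa [dv, h]
  filter_upwards [H 1 abs_one, H (-1) (by simp)] with a p1 p2 hn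
  replace hn : ¬ Tendsto (fun n => |∑ i, pos dv a n i * l i|) atTop atTop := hn.elim (mt fun e => by
    refine tendsto_atTop_mono (fun n => ?_) (e.atTop_div_const (by positivity : 0 < d * B + 1))
    rw [div_le_iff₀ (by positivity)]
    refine (abs_sum_le_sum_abs _ _).trans ((sum_le_card_nsmul _ _
      (√(∑ i, (pos dv a n i : ℝ) ^ 2) * B) fun i _ => ?_).trans ?_)
    · rw [abs_mul]
      exact mul_le_mul (Real.abs_le_sqrt (single_le_sum (f := fun i => (pos dv a n i : ℝ) ^ 2)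
        (fun _ _ => sq_nonneg _) (mem_univ i))) (hB i) (abs_nonneg _) (Real.sqrt_nonneg _)
    · simp only [card_univ, Fintype.card_fin, nsmul_eq_mul]
      nlinarith [Real.sqrt_nonneg (∑ i, (pos dv a n i : ℝ) ^ 2)]) id
  refine tendsto_order.2 ⟨fun b hb => ?_, fun b hb => ?_⟩
  · filter_upwards [p2 hn (-b / 2) (by linarith), eventually_gt_atTop 0] with n h n0
    have : (0 : ℝ) < n := by exact_mod_cast n0
    rw [lt_div_iff₀ this]
    nlinarith
  · filter_upwards [p1 hn (b / 2) (by linarith), eventually_gt_atTop 0] with n h n0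
    have : (0 : ℝ) < n := by exact_mod_cast n0
    rw [div_lt_iff₀ this]
    nlinarith

end Pool.Agent.H.MP_f4733e_pr
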